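import Pool.Agent.Lib.MP_d1e4d8_al.Final

/-!
# MP_d1e4d8_al: the vertex-bounded-defect property fails for `p = 3`

For every algebraically closed field `F` of characteristic `3` there are a `3`-group `Q` of order at
most `27` and finite groups `G 0, G 1, …` such that each `G n` has a simple `F (G n)`-module with
vertex isomorphic to `Q` whose block has defect groups of order at least `n`.
(The groups are `PGL(3, K)` for suitable finite fields `K` with `3 ^ n ∣ |K| - 1`, and the modules
are cuspidal modules in the principal block.)
-/

set_option autoImplicit false

universe u

/-- Negative answer to Puig's question for odd primes (`p = 3`). -/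
theorem Pool.Agent.Results.MP_d1e4d8_al.PuigOddDisproof.result :
    ∀ (F : Type u) [Field F] [IsAlgClosed F] [CharP F 3], Pool.Agent.Lib.MP_d1e4d8_al.Negated F :=
  fun F _ _ _ => Pool.Agent.Lib.MP_d1e4d8_al.main F
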